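import Pool.Agent.Helper17.RS.Sheet

/-! Row CERTK of project RS (MP_798d7d_nt). -/

set_option autoImplicit false

namespace Pool.Helper17.RS

open Pool.Agent.Helper97.RK (cur)

namespace K80

theorem dvd_MM {q : ℕ} (h0 : 0 < q) (hq : q ≤ 1000) : (q : ℤ) ∣ MM := by
  unfold MM
  exact_mod_cast Nat.dvd_factorial h0 hq

theorem cast_y {b y : Fin 3 → ℤ} (h : Cong b y) {q : ℕ} (hq : (q : ℤ) ∣ MM) (i : Fin 3) :
    ((y i : ℤ) : ZMod q) = ((b i : ℤ) : ZMod q) := by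
  have h1 : (q : ℤ) ∣ y i - b i := hq.trans (h i)
  rw [← sub_eq_zero, ← Int.cast_sub]
  exact (ZMod.intCast_zmod_eq_zero_iff_dvd _ q).2 h1

/-- abscissae -/
def kX (i : Fin 6) (u v w : ℤ) : ℤ :=
  ![-411 * w ^ 2 + 83 * u ^ 2 + 54 * u * v + 7 * v ^ 2,
    93 * w ^ 2 + 27 * u ^ 2 - 10 * u * v - v ^ 2,
    1533 * w ^ 2 + 432 * w * u + 216 * w * v + 11 * u ^ 2 + 18 * u * v + 7 * v ^ 2,
    453 * w ^ 2 - 48 * w * u + 24 * w * v + 3 * u ^ 2 + 2 * u * v - v ^ 2,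
    -87 * w ^ 2 + 144 * w * u + 18 * w * v - u ^ 2 + v ^ 2,
    318 * w ^ 2 + 2 * u ^ 2 - 2 * v ^ 2] i

/-- ordinates -/
def kY (i : Fin 6) (u v w : ℤ) : ℤ :=
  ![6804 * w ^ 2 * u + 1458 * w ^ 2 * v - 756 * u ^ 3 - 738 * u ^ 2 * v - 216 * u * v ^ 2 -
      18 * v ^ 3,
    1260 * w ^ 2 * u + 450 * w ^ 2 * v - 140 * u ^ 3 + 78 * u ^ 2 * v - 2 * v ^ 3,
    58320 * w ^ 3 + 25596 * w ^ 2 * u + 12798 * w ^ 2 * v + 2160 * w * u ^ 2 +
      2808 * w * u * v + 864 * w * v ^ 2 + 36 * u ^ 3 + 90 * u ^ 2 * v + 72 * u * v ^ 2 +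
      18 * v ^ 3,
    6480 * w ^ 3 - 1764 * w ^ 2 * u + 882 * w ^ 2 * v - 144 * w * u ^ 2 + 72 * w * u * v +
      4 * u ^ 3 + 6 * u ^ 2 * v - 2 * v ^ 3,
    4860 * w ^ 3 - 1728 * w ^ 2 * u - 216 * w ^ 2 * v + 36 * w * u ^ 2 - 216 * w * u * v -
      36 * w * v ^ 2,
    216 * w * u * v] i

theorem on_curve (u v w : ℤ) (i : Fin 6) :
    kY i u v w ^ 2 = kX i u v w ^ 3 + kA u v w * kX i u v w + kB u v w := by
  fin_cases i <;> simp [kX, kY, kA, kB] <;> ring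

theorem cA {R : Type*} [CommRing R] {u v w : ℤ} (hu : (u : R) = 3) (hv : (v : R) = 8)
    (hw : (w : R) = 2) : ((kA u v w : ℤ) : R) = ((-2763147 : ℤ) : R) := by
  unfold kA
  push_cast
  rw [hu, hv, hw]
  norm_num

theorem cB {R : Type*} [CommRing R] {u v w : ℤ} (hu : (u : R) = 3) (hv : (v : R) = 8)
    (hw : (w : R) = 2) : ((kB u v w : ℤ) : R) = ((1749288710 : ℤ) : R) := by
  unfold kB
  push_cast
  rw [hu, hv, hw]
  norm_num

/-- the abscissae at `(3, 8, 2)` -/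
def kv : Fin 6 → ℤ := ![847, 311, 13159, 1919, 859, 1162]

theorem cX {R : Type*} [CommRing R] {u v w : ℤ} (hu : (u : R) = 3) (hv : (v : R) = 8)
    (hw : (w : R) = 2) (i : Fin 6) : ((kX i u v w : ℤ) : R) = ((kv i : ℤ) : R) := by
  fin_cases i <;> simp [kX, kv] <;> rw [hu, hv, hw] <;> norm_num

theorem dec6 : ∀ S : Finset (Fin 6), S.Nonempty →
    ¬ IsSquare (∏ i ∈ S, (((![847, 311, 13159, 1919, 859, 1162] : Fin 6 → ℤ) i - 0 : ℤ) : ZMod 5)) ∨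
    ¬ IsSquare (∏ i ∈ S, (((![847, 311, 13159, 1919, 859, 1162] : Fin 6 → ℤ) i - 9 : ℤ) : ZMod 11)) ∨
    ¬ IsSquare (∏ i ∈ S, (((![847, 311, 13159, 1919, 859, 1162] : Fin 6 → ℤ) i - 0 : ℤ) : ZMod 13)) ∨
    ¬ IsSquare (∏ i ∈ S, (((![847, 311, 13159, 1919, 859, 1162] : Fin 6 → ℤ) i - 6 : ℤ) : ZMod 13)) ∨
    ¬ IsSquare (∏ i ∈ S, (((![847, 311, 13159, 1919, 859, 1162] : Fin 6 → ℤ) i - 17 : ℤ) : ZMod 19)) ∨
    ¬ IsSquare (∏ i ∈ S, (((![847, 311, 13159, 1919, 859, 1162] : Fin 6 → ℤ) i - 7 : ℤ) : ZMod 23)) := by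
  decide +kernel

theorem no_root (t : ZMod 17) :
    t ^ 3 + ((-2763147 : ℤ) : ZMod 17) * t + ((1749288710 : ℤ) : ZMod 17) ≠ 0 := by
  revert t
  decide +kernel

section
variable {y : Fin 3 → ℤ}

theorem yk (h : Cong kb y) {q : ℕ} (hq : (q : ℤ) ∣ MM) :
    ((y 0 : ℤ) : ZMod q) = 3 ∧ ((y 1 : ℤ) : ZMod q) = 8 ∧ ((y 2 : ℤ) : ZMod q) = 2 := by
  refine ⟨?_, ?_, ?_⟩ <;> rw [cast_y h hq] <;> simp [kb]

theorem step (h : Cong kb y) (S : Finset (Fin 6)) (q : ℕ) (e : ℤ) (hqp : q.Prime)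
    (hq : (q : ℤ) ∣ MM)
    (h1 : ((e ^ 3 + (-2763147) * e + 1749288710 : ℤ) : ZMod q) = 0)
    (h2 : ((3 * e ^ 2 + (-2763147) : ℤ) : ZMod q) ≠ 0)
    (h3 : ¬ IsSquare (∏ i ∈ S, ((kv i - e : ℤ) : ZMod q))) :
    ∃ (q : ℕ) (e : ℤ), q.Prime ∧
      ((e ^ 3 + kAy y * e + kBy y : ℤ) : ZMod q) = 0 ∧ ((3 * e ^ 2 + kAy y : ℤ) : ZMod q) ≠ 0 ∧
      ¬ IsSquare (∏ i ∈ S, ((kX i (y 0) (y 1) (y 2) - e : ℤ) : ZMod q)) := by
  obtain ⟨e0, e1, e2⟩ := yk h hq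
  have hA : ((kAy y : ℤ) : ZMod q) = ((-2763147 : ℤ) : ZMod q) := cA e0 e1 e2
  have hB : ((kBy y : ℤ) : ZMod q) = ((1749288710 : ℤ) : ZMod q) := cB e0 e1 e2
  refine ⟨q, e, hqp, ?_, ?_, ?_⟩
  · rw [← h1]
    simp only [Int.cast_add, Int.cast_mul, Int.cast_pow, hA, hB]
  · intro h
    apply h2
    rw [← h]
    simp only [Int.cast_add, Int.cast_mul, Int.cast_pow, hA]
  · intro h
    apply h3
    refine (congrArg IsSquare ?_).mp h
    apply Finset.prod_congr rfl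
    intro i _
    simp only [Int.cast_sub, cX e0 e1 e2 i]

theorem all (h : Cong kb y) (S : Finset (Fin 6)) (hS : S.Nonempty) :
    ∃ (q : ℕ) (e : ℤ), q.Prime ∧
      ((e ^ 3 + kAy y * e + kBy y : ℤ) : ZMod q) = 0 ∧ ((3 * e ^ 2 + kAy y : ℤ) : ZMod q) ≠ 0 ∧
      ¬ IsSquare (∏ i ∈ S, ((kX i (y 0) (y 1) (y 2) - e : ℤ) : ZMod q)) := by
  rcases dec6 S hS with h' | h' | h' | h' | h' | h'
  · exact step h S 5 0 (by norm_num) (dvd_MM (by norm_num) (by norm_num)) (by decide) (by decide) h'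
  · exact step h S 11 9 (by norm_num) (dvd_MM (by norm_num) (by norm_num)) (by decide) (by decide)
      h'
  · exact step h S 13 0 (by norm_num) (dvd_MM (by norm_num) (by norm_num)) (by decide) (by decide)
      h'
  · exact step h S 13 6 (by norm_num) (dvd_MM (by norm_num) (by norm_num)) (by decide) (by decide)
      h'
  · exact step h S 19 17 (by norm_num) (dvd_MM (by norm_num) (by norm_num)) (by decide) (by decide)
      h'
  · exact step h S 23 7 (by norm_num) (dvd_MM (by norm_num) (by norm_num)) (by decide) (by decide)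
      h'

end

end K80

open K80 in
/-- row CERTK -/
theorem st_CERTK (hR : Pool.Agent.Helper97.RK.ST_RANK) : ST_CERTK := by
  intro y h
  have h7 : ((7 : ℕ) : ℤ) ∣ MM := dvd_MM (by norm_num) (by norm_num)
  have h17 : ((17 : ℕ) : ℤ) ∣ MM := dvd_MM (by norm_num) (by norm_num)
  have hdisc : 4 * kAy y ^ 3 + 27 * kBy y ^ 2 ≠ 0 := by
    intro h0
    obtain ⟨e0, e1, e2⟩ := yk h h7
    have hA : ((kAy y : ℤ) : ZMod 7) = ((-2763147 : ℤ) : ZMod 7) := cA e0 e1 e2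
    have hB : ((kBy y : ℤ) : ZMod 7) = ((1749288710 : ℤ) : ZMod 7) := cB e0 e1 e2
    have h1 := congrArg (fun n : ℤ => (n : ZMod 7)) h0
    simp only [Int.cast_add, Int.cast_mul, Int.cast_pow, hA, hB] at h1
    revert h1
    decide
  refine ⟨hdisc, ?_, ?_⟩
  · intro q hq hlt hdv
    obtain ⟨ha, hb⟩ := hdv
    have hqM : (q : ℤ) ∣ MM := dvd_MM hq.pos hlt
    obtain ⟨e0, e1, e2⟩ := yk h hqM
    have hA : ((kAy y : ℤ) : ZMod q) = ((-2763147 : ℤ) : ZMod q) := cA e0 e1 e2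
    have hB : ((kBy y : ℤ) : ZMod q) = ((1749288710 : ℤ) : ZMod q) := cB e0 e1 e2
    have ha' : (q : ℤ) ∣ -2763147 := by
      rw [← ZMod.intCast_zmod_eq_zero_iff_dvd, ← hA, ZMod.intCast_zmod_eq_zero_iff_dvd]
      exact ha
    have hb' : (q : ℤ) ∣ 1749288710 := by
      rw [← ZMod.intCast_zmod_eq_zero_iff_dvd, ← hB, ZMod.intCast_zmod_eq_zero_iff_dvd]
      exact hb
    have h1' : (q : ℤ) ∣ 1 := by
      have e2 : IsCoprime (-2763147 : ℤ) 1749288710 := by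
        rw [Int.isCoprime_iff_gcd_eq_one]
        decide +kernel
      obtain ⟨a, b, hab⟩ := e2
      rw [← hab]
      exact dvd_add (ha'.mul_left a) (hb'.mul_left b)
    have h2' : q ∣ 1 := by exact_mod_cast h1'
    exact hq.one_lt.ne' (Nat.dvd_one.1 h2')
  · refine hR 6 _ _ (fun i => kX i (y 0) (y 1) (y 2)) (fun i => kY i (y 0) (y 1) (y 2))
      (fun i => on_curve (y 0) (y 1) (y 2) i) hdisc 17 ?_ (fun S hS => all h S hS)
    intro t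
    obtain ⟨e0, e1, e2⟩ := yk h h17
    have hA : ((kAy y : ℤ) : ZMod 17) = ((-2763147 : ℤ) : ZMod 17) := cA e0 e1 e2
    have hB : ((kBy y : ℤ) : ZMod 17) = ((1749288710 : ℤ) : ZMod 17) := cB e0 e1 e2
    rw [hA, hB]
    exact no_root t

end Pool.Helper17.RS
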